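import Pool.Agent.Y957.AD.Basic

/-! Project AD: the window functions of a function of polynomially bounded variation. -/

set_option autoImplicit false

namespace Pool.Agent.Y691.AD

open Finset MeasureTheory Filter
open Pool.Agent.Y957.AD

/-- `L¹` modulus of continuity of a function controlled by a bounded monotone function -/
theorem int_var {F : ℝ → ℂ} {v : ℝ → ℝ} {V : ℝ} (hF : Integrable F) (hv : Monotone v)
    (hv0 : ∀ r, 0 ≤ v r) (hvV : ∀ r, v r ≤ V) (h : ∀ r r', r ≤ r' → ‖F r' - F r‖ ≤ v r' - v r)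
    {s : ℝ} (hs : 0 ≤ s) : ∫ r, ‖F (r + s) - F r‖ ≤ V * s := by
  have hi : Integrable (fun r => ‖F (r + s) - F r‖) := ((hF.comp_add_right s).sub hF).norm
  have hlim := intervalIntegral_tendsto_integral hi tendsto_neg_atTop_atBot tendsto_id
  refine le_of_tendsto hlim ?_
  filter_upwards [eventually_ge_atTop (0 : ℝ)] with R hR
  have hvi : ∀ a b, IntervalIntegrable v volume a b := fun a b => hv.intervalIntegrable
  have hvi' : IntervalIntegrable (fun r => v (r + s)) volume (-R) R := by
    have : Monotone (fun r => v (r + s)) := fun a b hab => hv (by linarith)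
    exact this.intervalIntegrable
  have h1 : ∫ r in (-R)..R, ‖F (r + s) - F r‖ ≤ ∫ r in (-R)..R, (v (r + s) - v r) := by
    refine intervalIntegral.integral_mono_on (by linarith) hi.intervalIntegrable
      (hvi'.sub (hvi _ _)) (fun r _ => h r (r + s) (by linarith))
  have h2 : ∫ r in (-R)..R, (v (r + s) - v r) =
      (∫ r in (-R + s)..(R + s), v r) - ∫ r in (-R)..R, v r := by
    rw [intervalIntegral.integral_sub hvi' (hvi _ _),
      intervalIntegral.integral_comp_add_right (fun r => v r) s]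
  have h3 := intervalIntegral.integral_interval_sub_interval_comm (hvi (-R + s) (R + s))
    (hvi (-R) R) (hvi (-R + s) (-R))
  have h4 : ∫ r in R..(R + s), v r ≤ V * s := by
    have := intervalIntegral.integral_mono_on (show R ≤ R + s by linarith) (hvi R (R + s))
      (intervalIntegrable_const (c := V)) (fun r _ => hvV r)
    refine this.trans ?_
    rw [intervalIntegral.integral_const, smul_eq_mul]
    linarith
  have h5 : 0 ≤ ∫ r in (-R)..(-R + s), v r :=
    intervalIntegral.integral_nonneg (by linarith) (fun r _ => hv0 r)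
  have h6 : ∫ r in (R + s)..R, v r = -∫ r in R..(R + s), v r :=
    intervalIntegral.integral_symm _ _
  have h7 : ∫ r in (-R + s)..(-R), v r = -∫ r in (-R)..(-R + s), v r :=
    intervalIntegral.integral_symm _ _
  simp only [id]
  linarith

/-- the variation function -/
noncomputable def va (A : ℝ → ℂ) (x : ℝ) : ℝ := (eVariationOn A (Set.Icc 0 x)).toReal

theorem va_nonneg (A : ℝ → ℂ) (x : ℝ) : 0 ≤ va A x := ENNReal.toReal_nonneg

theorem var_fin {A : ℝ → ℂ} (hA : PolyVar A) (x : ℝ) : eVariationOn A (Set.Icc 0 x) ≠ ⊤ := by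
  obtain ⟨C, D, _, h⟩ := hA
  refine ne_top_of_le_ne_top ENNReal.ofReal_ne_top
    ((eVariationOn.mono A ?_).trans (h (max x 1) (le_max_right _ _)))
  exact Set.Icc_subset_Icc le_rfl (le_max_left _ _)

theorem va_sub {A : ℝ → ℂ} (hA : PolyVar A) {x y : ℝ} (hx : 0 ≤ x) (hxy : x ≤ y) :
    ‖A y - A x‖ ≤ va A y - va A x := by
  have h1 := eVariationOn.Icc_add_Icc A hx hxy (Set.mem_univ x)
  simp only [Set.univ_inter] at h1
  have h2 : edist (A y) (A x) ≤ eVariationOn A (Set.Icc x y) :=
    eVariationOn.edist_le A (Set.right_mem_Icc.2 hxy) (Set.left_mem_Icc.2 hxy)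
  have hy := var_fin hA y
  have hx' := var_fin hA x
  have h3 : eVariationOn A (Set.Icc x y) ≠ ⊤ := by
    intro h
    rw [h, add_top] at h1
    exact hy h1.symm
  have h4 : va A y = va A x + (eVariationOn A (Set.Icc x y)).toReal := by
    unfold va
    rw [← h1, ENNReal.toReal_add hx' h3]
  have h5 : ‖A y - A x‖ ≤ (eVariationOn A (Set.Icc x y)).toReal := by
    rw [← dist_eq_norm, dist_edist]
    exact ENNReal.toReal_mono h3 h2
  linarith

theorem va_mono {A : ℝ → ℂ} (hA : PolyVar A) {x y : ℝ} (hx : 0 ≤ x) (hxy : x ≤ y) :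
    va A x ≤ va A y := by
  have := va_sub hA hx hxy
  have := norm_nonneg (A y - A x)
  linarith

/-- window function -/
noncomputable def Fw (A : ℝ → ℂ) (j w r : ℝ) : ℂ :=
  if r ≤ w then ((Real.exp (r - w) : ℝ) : ℂ) * A (Real.exp (r + j)) else 0

theorem Fw_meas {A : ℝ → ℂ} (hA : Measurable A) (j w : ℝ) : Measurable (Fw A j w) := by
  unfold Fw
  refine Measurable.ite measurableSet_Iic ?_ measurable_const
  refine Measurable.mul ?_ (hA.comp (by fun_prop))
  exact Complex.measurable_ofReal.comp (by fun_prop)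

theorem Fw_le {A : ℝ → ℂ} (hA1 : ∀ x, ‖A x‖ ≤ 1) (j w r : ℝ) (hr : r ≤ w) :
    ‖Fw A j w r‖ ≤ Real.exp (r - w) := by
  unfold Fw
  rw [if_pos hr, norm_mul, Complex.norm_real, Real.norm_eq_abs, abs_of_pos (Real.exp_pos _)]
  exact mul_le_of_le_one_right (Real.exp_pos _).le (hA1 _)

theorem Fw_zero (A : ℝ → ℂ) (j w r : ℝ) (hr : w < r) : Fw A j w r = 0 := by
  unfold Fw
  rw [if_neg (not_le.2 hr)]

theorem Fw_int {A : ℝ → ℂ} (hA1 : ∀ x, ‖A x‖ ≤ 1) (hA : Measurable A) (j w : ℝ) :
    Integrable (Fw A j w) := by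
  have h1 : IntegrableOn (fun r : ℝ => Real.exp (r - w)) (Set.Iic w) := by
    have h := integrableOn_exp_Iic w
    have h2 : (fun r : ℝ => Real.exp (r - w)) = fun r => Real.exp (-w) * Real.exp r := by
      funext r; rw [← Real.exp_add]; congr 1; ring
    rw [h2]
    exact h.const_mul _
  have h3 : IntegrableOn (Fw A j w) (Set.Iic w) := by
    refine h1.mono' (Fw_meas hA j w).aestronglyMeasurable ?_
    refine (ae_restrict_mem measurableSet_Iic).mono (fun r hr => Fw_le hA1 j w r hr)
  have h4 : IntegrableOn (Fw A j w) (Set.Ioi w) := by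
    have h0 : IntegrableOn (fun _ : ℝ => (0 : ℂ)) (Set.Ioi w) := integrableOn_zero
    exact h0.congr_fun (fun r hr => (Fw_zero A j w r hr).symm) measurableSet_Ioi
  have h5 := h3.union h4
  rwa [Set.Iic_union_Ioi, integrableOn_univ] at h5

/-- the monotone function controlling the window function -/
noncomputable def vw (A : ℝ → ℂ) (j w r : ℝ) : ℝ :=
  if r ≤ w then va A (Real.exp (r + j)) + Real.exp (r - w) else va A (Real.exp (w + j)) + 2

theorem vw_sub {A : ℝ → ℂ} (hA1 : ∀ x, ‖A x‖ ≤ 1) (hA : PolyVar A) (j w r r' : ℝ)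
    (hr : r ≤ r') : ‖Fw A j w r' - Fw A j w r‖ ≤ vw A j w r' - vw A j w r := by
  by_cases h' : r' ≤ w
  · have h : r ≤ w := hr.trans h'
    unfold Fw vw
    rw [if_pos h, if_pos h', if_pos h, if_pos h']
    have e1 : ((Real.exp (r' - w) : ℝ) : ℂ) * A (Real.exp (r' + j)) -
        ((Real.exp (r - w) : ℝ) : ℂ) * A (Real.exp (r + j)) =
        ((Real.exp (r' - w) : ℝ) : ℂ) * (A (Real.exp (r' + j)) - A (Real.exp (r + j))) +
        ((Real.exp (r' - w) - Real.exp (r - w) : ℝ) : ℂ) * A (Real.exp (r + j)) := by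
      push_cast; ring
    have h1 : Real.exp (r + j) ≤ Real.exp (r' + j) := Real.exp_le_exp.2 (by linarith)
    have h2 := va_sub hA (Real.exp_pos (r + j)).le h1
    have h3 : Real.exp (r - w) ≤ Real.exp (r' - w) := Real.exp_le_exp.2 (by linarith)
    have h4 : Real.exp (r' - w) ≤ 1 := by
      rw [Real.exp_le_one_iff]; linarith
    rw [e1]
    refine (norm_add_le _ _).trans ?_
    rw [norm_mul, norm_mul, Complex.norm_real, Complex.norm_real, Real.norm_eq_abs,
      Real.norm_eq_abs, abs_of_pos (Real.exp_pos _), abs_of_nonneg (by linarith)]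
    have h5 := hA1 (Real.exp (r + j))
    have h6 : Real.exp (r' - w) * ‖A (Real.exp (r' + j)) - A (Real.exp (r + j))‖ ≤
        ‖A (Real.exp (r' + j)) - A (Real.exp (r + j))‖ :=
      mul_le_of_le_one_left (norm_nonneg _) h4
    have h7 : (Real.exp (r' - w) - Real.exp (r - w)) * ‖A (Real.exp (r + j))‖ ≤
        Real.exp (r' - w) - Real.exp (r - w) := mul_le_of_le_one_right (by linarith) h5
    linarith
  · push Not at h'
    by_cases h : r ≤ w
    · rw [Fw_zero A j w r' h', zero_sub, norm_neg]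
      have h1 := Fw_le hA1 j w r h
      unfold vw
      rw [if_pos h, if_neg (not_le.2 h')]
      have h2 : va A (Real.exp (r + j)) ≤ va A (Real.exp (w + j)) :=
        va_mono hA (Real.exp_pos _).le (Real.exp_le_exp.2 (by linarith))
      have h3 : Real.exp (r - w) ≤ 1 := by
        rw [Real.exp_le_one_iff]; linarith
      linarith
    · push Not at h
      rw [Fw_zero A j w r' h', Fw_zero A j w r h]
      unfold vw
      rw [if_neg (not_le.2 h), if_neg (not_le.2 h')]
      simp

theorem vw_mono {A : ℝ → ℂ} (hA1 : ∀ x, ‖A x‖ ≤ 1) (hA : PolyVar A) (j w : ℝ) :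
    Monotone (vw A j w) := by
  intro r r' hr
  have := vw_sub hA1 hA j w r r' hr
  have := norm_nonneg (Fw A j w r' - Fw A j w r)
  linarith

theorem vw_nonneg (A : ℝ → ℂ) (j w r : ℝ) : 0 ≤ vw A j w r := by
  unfold vw
  have h1 := va_nonneg A (Real.exp (r + j))
  have h2 := va_nonneg A (Real.exp (w + j))
  have h3 := Real.exp_pos (r - w)
  split_ifs <;> linarith

theorem vw_le {A : ℝ → ℂ} (hA : PolyVar A) (j w r : ℝ) :
    vw A j w r ≤ va A (Real.exp (w + j)) + 2 := by
  unfold vw
  split_ifs with h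
  · have h2 : va A (Real.exp (r + j)) ≤ va A (Real.exp (w + j)) :=
        va_mono hA (Real.exp_pos _).le (Real.exp_le_exp.2 (by linarith))
    have h3 : Real.exp (r - w) ≤ 1 := by
      rw [Real.exp_le_one_iff]; linarith
    linarith
  · exact le_rfl

/-- the window functions are admissible -/
theorem Fw_win {A : ℝ → ℂ} (hA1 : ∀ x, ‖A x‖ ≤ 1) (hA : Measurable A) (hV : PolyVar A) :
    ∃ D : ℝ, 0 < D ∧ ∀ j : ℝ, ∃ w₁ : ℝ, ∀ w, w₁ ≤ w → Win (Fw A j w) w (Real.exp (D * w)) := by
  obtain ⟨C, D, hD, h⟩ := id hV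
  refine ⟨D + 1, by linarith, fun j => ⟨max (max 0 (-j)) (Real.log (|C| * Real.exp (D * j) + 2)),
    fun w hw => ?_⟩⟩
  have hw0 : 0 ≤ w := (le_max_left _ _).trans ((le_max_left _ _).trans hw)
  have hwj : 0 ≤ w + j := by
    have : -j ≤ w := (le_max_right _ _).trans ((le_max_left _ _).trans hw)
    linarith
  have hw1 : |C| * Real.exp (D * j) + 2 ≤ Real.exp w := by
    rw [← Real.log_le_iff_le_exp (by positivity)]
    exact (le_max_right _ _).trans hw
  have hX : 1 ≤ Real.exp (w + j) := Real.one_le_exp hwj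
  have h1 := h _ hX
  have h2 : va A (Real.exp (w + j)) ≤ |C| * Real.exp (D * (w + j)) := by
    unfold va
    refine ENNReal.toReal_le_of_le_ofReal (by positivity) (h1.trans (ENNReal.ofReal_le_ofReal ?_))
    rw [← Real.exp_mul, mul_comm (w + j) D]
    exact mul_le_mul_of_nonneg_right (le_abs_self C) (Real.exp_pos _).le
  have h3 : va A (Real.exp (w + j)) + 2 ≤ Real.exp ((D + 1) * w) := by
    have e1 : Real.exp ((D + 1) * w) = Real.exp w * Real.exp (D * w) := by
      rw [← Real.exp_add]; congr 1; ring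
    have e2 : Real.exp (D * (w + j)) = Real.exp (D * j) * Real.exp (D * w) := by
      rw [← Real.exp_add]; congr 1; ring
    have h4 : 1 ≤ Real.exp (D * w) := Real.one_le_exp (by positivity)
    rw [e1]
    rw [e2] at h2
    calc va A (Real.exp (w + j)) + 2 ≤ |C| * (Real.exp (D * j) * Real.exp (D * w)) +
          2 * Real.exp (D * w) := by linarith
      _ = (|C| * Real.exp (D * j) + 2) * Real.exp (D * w) := by ring
      _ ≤ Real.exp w * Real.exp (D * w) := by gcongr
  refine ⟨Fw_meas hA j w, fun r hr => Fw_le hA1 j w r hr, fun r hr => Fw_zero A j w r hr, ?_⟩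
  intro s hs0 _
  refine (int_var (Fw_int hA1 hA j w) (vw_mono hA1 hV j w) (vw_nonneg A j w)
    (vw_le hV j w) (vw_sub hA1 hV j w) hs0).trans ?_
  exact mul_le_mul_of_nonneg_right h3 hs0

end Pool.Agent.Y691.AD
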